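import Pool.Agent.Helper13.BR.H3M
import Pool.Agent.BR3.Tri

/-!
# The Artin group of type H₃ is in the class
-/

set_option autoImplicit false

namespace Pool.Agent.Helper13.BR

open Pool.Agent.BR3 Pool.Agent.Helper54.LA Pool.Agent.Helper13.LT Pool.Agent.Helper3.FJ
  Pool.Agent.Helper29.BA Pool.Agent.Helper29.PA

/-- The Artin group of type H₃. -/
theorem h3_mem {C : ∀ (G : Type) [Group G], Prop} (hC : TriClass C) {S : Type}
    (M : CoxeterMatrix S) {s t u : S} (hS : ∀ x, x = s ∨ x = t ∨ x = u) (hst : s ≠ t) (htu : t ≠ u)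
    (hsu : s ≠ u) (m1 : M s t = 5) (m2 : M t u = 3) (m3 : M s u = 2) : C (ArtinGroup M) := by
  obtain ⟨f, hf⟩ := exists_inj M hS hst htu hsu m1 m2 m3
  exact hC.toClosedClass.inj f hf (dual_mem hC dual_h3)

end Pool.Agent.Helper13.BR
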