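import Mathlib

/-!
# The dual presentation of the Artin group of type H₃
-/

set_option autoImplicit false

namespace Pool.Agent.Helper13.BR

/-- The atoms: three orbits of length five under the conjugation by the Coxeter element. -/
abbrev At : Type := Fin 3 × ZMod 5

/-- The conjugation by the Coxeter element. -/
def ph (a : At) : At := (a.1, a.2 + 1)

/-- The rotation of factorizations. -/
def rot (f : At × At × At) : At × At × At := (f.2.1, f.2.2, ph f.1)

/-- Factorizations of the Coxeter element up to rotation. -/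
def bases : List (At × At × At) :=
  [((0, 0), (1, 0), (1, 4)), ((0, 0), (1, 4), (2, 1)), ((0, 0), (2, 1), (1, 0)),
    ((1, 0), (1, 2), (1, 4))]

/-- The factorizations of the Coxeter element. -/
def FH : Finset (At × At × At) :=
  (bases.flatMap fun f => (List.range 15).map fun n => rot^[n] f).toFinset

theorem card_FH : FH.card = 50 := by decide +kernel

section

variable {A : Type} [Group A] {s t u : A}

section

variable (h1 : s * u = u * s) (h2 : t * u * t = u * t * u)
  (h3 : s * t * s * t * s = t * s * t * s * t)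

include h1 h2 in
theorem u_d : u * (s * t * u) = s * t * u * t := by
  calc u * (s * t * u) = (u * s) * t * u := by simp only [mul_assoc]
    _ = s * (u * t * u) := by rw [← h1]; simp only [mul_assoc]
    _ = s * t * u * t := by rw [← h2]; simp only [mul_assoc]

include h1 h2 in
theorem d_d : s * t * u * (s * t * u) = s * t * s * t * u * t := by
  calc s * t * u * (s * t * u) = s * t * (u * (s * t * u)) := by simp only [mul_assoc]
    _ = s * t * (s * t * u * t) := by rw [u_d h1 h2]
    _ = s * t * s * t * u * t := by simp only [mul_assoc]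

include h1 h2 h3 in
theorem i1 : t * (s * t * u * (s * t * u)) = s * t * u * (s * t * u) * (t⁻¹ * s * t) := by
  rw [d_d h1 h2]
  calc t * (s * t * s * t * u * t) = (t * s * t * s * t) * u * t := by simp only [mul_assoc]
    _ = s * t * s * t * (s * u) * t := by rw [← h3]; simp only [mul_assoc]
    _ = s * t * s * t * u * (s * t) := by rw [h1]; simp only [mul_assoc]
    _ = s * t * s * t * u * t * (t⁻¹ * s * t) := by simp only [mul_assoc, mul_inv_cancel_left]

include h1 h2 h3 in
theorem i2 : t⁻¹ * s * t * (s * t * u * (s * t * u)) = s * t * u * (s * t * u) * u := by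
  rw [d_d h1 h2]
  calc t⁻¹ * s * t * (s * t * s * t * u * t) = t⁻¹ * ((s * t * s * t * s) * (t * u * t)) := by
        simp only [mul_assoc]
    _ = t⁻¹ * ((t * s * t * s * t) * (t * u * t)) := by rw [h3]
    _ = s * t * s * t * (t * u * t) := by simp only [mul_assoc, inv_mul_cancel_left]
    _ = s * t * s * t * u * t * u := by rw [h2]; simp only [mul_assoc]

end

/-- Representatives of the orbits of atoms. -/
def rp (s t : A) (i : Fin 3) : A := if i = 0 then s else if i = 1 then t else s * t * s⁻¹

/-- The atoms. -/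
def w (s t u : A) (a : At) : A :=
  ((s * t * u) ^ a.2.val)⁻¹ * rp s t a.1 * (s * t * u) ^ a.2.val

variable (h1 : s * u = u * s) (h2 : t * u * t = u * t * u)
  (h3 : s * t * s * t * s = t * s * t * s * t)

include h1 h2 h3 in
theorem t_d4 : t * (s * t * u) ^ 4 = (s * t * u) ^ 4 * u := by
  have e1 := i1 h1 h2 h3
  have e2 := i2 h1 h2 h3
  have e3 : (s * t * u) ^ 4 = (s * t * u * (s * t * u)) * (s * t * u * (s * t * u)) := by
    rw [pow_succ, pow_succ, pow_succ, pow_one]
    simp only [mul_assoc]
  rw [e3, ← mul_assoc, e1, mul_assoc, e2, ← mul_assoc]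

include h1 h2 h3 in
theorem comm_d5 (i : Fin 3) : Commute ((s * t * u) ^ 5) (rp s t i) := by
  have h4 := t_d4 h1 h2 h3
  have h5 := u_d h1 h2
  have hD : Commute ((s * t * u) ^ 5) (s * t * u) := (Commute.refl _).pow_left 5
  have ht : Commute ((s * t * u) ^ 5) t := by
    calc (s * t * u) ^ 5 * t = (s * t * u) ^ 4 * (s * t * u * t) := by rw [pow_succ, mul_assoc]
      _ = (s * t * u) ^ 4 * u * (s * t * u) := by
          rw [← h5]
          exact (mul_assoc _ _ _).symm
      _ = t * (s * t * u) ^ 4 * (s * t * u) := by rw [h4]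
      _ = t * (s * t * u) ^ 5 := by rw [mul_assoc, ← pow_succ]
  have hu : Commute ((s * t * u) ^ 5) u := by
    have h6 : (s * t * u) * t * (s * t * u)⁻¹ = u := by
      rw [← h5, mul_inv_cancel_right]
    have h7 := (hD.mul_right ht).mul_right hD.inv_right
    rwa [h6] at h7
  have hs : Commute ((s * t * u) ^ 5) s := by
    have h6 : (s * t * u) * u⁻¹ * t⁻¹ = s := by group
    have h7 := (hD.mul_right hu.inv_right).mul_right ht.inv_right
    rwa [h6] at h7
  unfold rp
  split_ifs
  · exact hs
  · exact ht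
  · exact (hs.mul_right ht).mul_right hs.inv_right

theorem conj_five (D r : A) : D⁻¹ * ((D ^ 4)⁻¹ * r * D ^ 4) * D = (D ^ 5)⁻¹ * r * D ^ 5 := by
  group

include h1 h2 h3 in
theorem w_ph (a : At) : w s t u (ph a) = (s * t * u)⁻¹ * w s t u a * (s * t * u) := by
  have hc := comm_d5 h1 h2 h3 a.1
  obtain ⟨i, k⟩ := a
  unfold w ph
  simp only at hc ⊢
  by_cases hk : k.val < 4
  · have h : (k + 1).val = k.val + 1 := by
      clear hc
      revert hk
      revert k
      decide
    rw [h, pow_succ, mul_inv_rev]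
    simp only [mul_assoc]
  · have hk4 : k = 4 := by
      have := k.val_lt
      have h5 : k.val = 4 := by omega
      exact ZMod.val_injective 5 (by rw [h5]; rfl)
    subst hk4
    have e0 : ((4 : ZMod 5) + 1).val = 0 := by decide
    have e4 : ((4 : ZMod 5)).val = 4 := by decide
    rw [e0, e4, pow_zero, inv_one, one_mul, mul_one]
    rw [conj_five, mul_assoc, ← hc.eq, inv_mul_cancel_left]

include h1 h2 h3 in
theorem w_14 : w s t u (1, 4) = u := by
  have e4 : ((4 : ZMod 5)).val = 4 := by decide
  unfold w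
  simp only [e4]
  change ((s * t * u) ^ 4)⁻¹ * t * (s * t * u) ^ 4 = u
  rw [mul_assoc, t_d4 h1 h2 h3, inv_mul_cancel_left]

include h1 h2 h3 in
theorem w_12 : w s t u (1, 2) = t⁻¹ * s * t := by
  have e4 : ((2 : ZMod 5)).val = 2 := by decide
  unfold w
  simp only [e4]
  change ((s * t * u) ^ 2)⁻¹ * t * (s * t * u) ^ 2 = _
  rw [pow_two, mul_assoc _ t, i1 h1 h2 h3, inv_mul_cancel_left]

theorem w_21 : w s t u (2, 1) = u⁻¹ * t * u := by
  have e4 : ((1 : ZMod 5)).val = 1 := by decide
  unfold w
  simp only [e4]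
  change ((s * t * u) ^ 1)⁻¹ * (s * t * s⁻¹) * (s * t * u) ^ 1 = _
  group

theorem w_i0 (i : Fin 3) : w s t u (i, 0) = rp s t i := by
  unfold w
  simp

include h1 h2 h3 in
/-- The factorizations. -/
theorem w_mul {f : At × At × At} (hf : f ∈ FH) :
    w s t u f.1 * w s t u f.2.1 * w s t u f.2.2 = s * t * u := by
  have hrot : ∀ f : At × At × At, w s t u f.1 * w s t u f.2.1 * w s t u f.2.2 = s * t * u →
      w s t u (rot f).1 * w s t u (rot f).2.1 * w s t u (rot f).2.2 = s * t * u := by
    rintro ⟨a, b, c⟩ h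
    change w s t u b * w s t u c * w s t u (ph a) = s * t * u
    rw [w_ph h1 h2 h3]
    change w s t u a * w s t u b * w s t u c = s * t * u at h
    have h' : w s t u b * w s t u c = (w s t u a)⁻¹ * (s * t * u) := by
      rw [← h]
      group
    rw [h']
    group
  have hit : ∀ (n : ℕ) (f : At × At × At), w s t u f.1 * w s t u f.2.1 * w s t u f.2.2 = s * t * u →
      w s t u (rot^[n] f).1 * w s t u (rot^[n] f).2.1 * w s t u (rot^[n] f).2.2 = s * t * u := by
    intro n
    induction n with
    | zero => exact fun f h => h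
    | succ n ih =>
      intro f h
      rw [Function.iterate_succ_apply']
      exact hrot _ (ih f h)
  rw [FH, List.mem_toFinset, List.mem_flatMap] at hf
  obtain ⟨g, hg, hf⟩ := hf
  obtain ⟨n, -, rfl⟩ := List.mem_map.1 hf
  refine hit n g ?_
  have b0 : w s t u (1, 0) = t := w_i0 1
  have a0 : w s t u (0, 0) = s := w_i0 0
  simp only [bases, List.mem_cons, List.not_mem_nil, or_false] at hg
  rcases hg with rfl | rfl | rfl | rfl
  · change w s t u (0, 0) * w s t u (1, 0) * w s t u (1, 4) = _
    rw [a0, b0, w_14 h1 h2 h3]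
  · change w s t u (0, 0) * w s t u (1, 4) * w s t u (2, 1) = _
    rw [a0, w_14 h1 h2 h3, w_21]
    group
  · change w s t u (0, 0) * w s t u (2, 1) * w s t u (1, 0) = _
    rw [a0, b0, w_21]
    calc s * (u⁻¹ * t * u) * t = s * u⁻¹ * (t * u * t) := by simp only [mul_assoc]
      _ = s * u⁻¹ * (u * t * u) := by rw [h2]
      _ = s * t * u := by group
  · change w s t u (1, 0) * w s t u (1, 2) * w s t u (1, 4) = _
    rw [b0, w_12 h1 h2 h3, w_14 h1 h2 h3]
    group

end

section

variable {G : Type} [Group G] {x : At → G} {d : G}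
  (h : ∀ f ∈ FH, x f.1 * x f.2.1 * x f.2.2 = d)

include h

theorem pair_eq {a b a' b' c : At} (h1 : (a, b, c) ∈ FH) (h2 : (a', b', c) ∈ FH) :
    x a * x b = x a' * x b' := by
  have e1 := h _ h1
  have e2 := h _ h2
  exact mul_right_cancel (e1.trans e2.symm)

theorem rel_su : x (0, 0) * x (1, 4) = x (1, 4) * x (0, 0) :=
  pair_eq h (c := (2, 1)) (by decide +kernel) (by decide +kernel)

theorem rel_tu : x (1, 0) * x (1, 4) * x (1, 0) = x (1, 4) * x (1, 0) * x (1, 4) := by
  have e1 : x (1, 0) * x (1, 4) = x (1, 4) * x (2, 1) :=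
    pair_eq h (c := (0, 1)) (by decide +kernel) (by decide +kernel)
  have e2 : x (2, 1) * x (1, 0) = x (1, 0) * x (1, 4) :=
    pair_eq h (c := (0, 1)) (by decide +kernel) (by decide +kernel)
  rw [e1, mul_assoc, e2, mul_assoc]

theorem rel_st : x (0, 0) * x (1, 0) * x (0, 0) * x (1, 0) * x (0, 0) =
    x (1, 0) * x (0, 0) * x (1, 0) * x (0, 0) * x (1, 0) := by
  have e1 : x (0, 0) * x (1, 0) = x (1, 0) * x (1, 2) :=
    pair_eq h (c := (1, 4)) (by decide +kernel) (by decide +kernel)
  have e2 : x (1, 2) * x (0, 4) = x (0, 0) * x (1, 0) :=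
    pair_eq h (c := (1, 4)) (by decide +kernel) (by decide +kernel)
  have e3 : x (0, 4) * x (2, 0) = x (0, 0) * x (1, 0) :=
    pair_eq h (c := (1, 4)) (by decide +kernel) (by decide +kernel)
  have e4 : x (2, 0) * x (0, 0) = x (0, 0) * x (1, 0) :=
    pair_eq h (c := (1, 4)) (by decide +kernel) (by decide +kernel)
  obtain ⟨s, hs⟩ : ∃ s, s = x (0, 0) := ⟨_, rfl⟩
  obtain ⟨t, ht⟩ : ∃ t, t = x (1, 0) := ⟨_, rfl⟩
  obtain ⟨p, hp⟩ : ∃ p, p = x (1, 2) := ⟨_, rfl⟩
  obtain ⟨q, hq⟩ : ∃ q, q = x (0, 4) := ⟨_, rfl⟩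
  obtain ⟨r, hr⟩ : ∃ r, r = x (2, 0) := ⟨_, rfl⟩
  rw [← hs, ← ht] at e1 e2 e3 e4 ⊢
  rw [← hp] at e1 e2
  rw [← hq] at e2 e3
  rw [← hr] at e3 e4
  -- `t * v = v * q`, `q * v = v * s` for `v = s * t`
  have f1 : t * (s * t) = s * t * q := by
    calc t * (s * t) = t * (p * q) := by rw [e2]
      _ = (t * p) * q := by rw [mul_assoc]
      _ = s * t * q := by rw [← e1]
  have f2 : q * (s * t) = s * t * s := by
    calc q * (s * t) = q * (r * s) := by rw [e4]
      _ = (q * r) * s := by rw [mul_assoc]
      _ = s * t * s := by rw [e3]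
  calc s * t * s * t * s = s * t * (s * t * s) := by simp only [mul_assoc]
    _ = s * t * (q * (s * t)) := by rw [f2]
    _ = (s * t * q) * (s * t) := by simp only [mul_assoc]
    _ = t * (s * t) * (s * t) := by rw [f1]
    _ = t * s * t * s * t := by simp only [mul_assoc]

end

end Pool.Agent.Helper13.BR
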