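import Pool.Agent.Helper13.BR.H3
import Pool.Agent.BR3.Defs
import Pool.Agent.Helper29.BA.Wr

/-!
# The Artin group of type H₃ embeds in the group of the dual presentation
-/

set_option autoImplicit false
set_option maxRecDepth 100000

namespace Pool.Agent.Helper13.BR

open Pool.Agent.BR3 Pool.Agent.Helper54.LA Pool.Agent.Helper13.LT

theorem rot_mem {f : At × At × At} (h : f ∈ FH) : rot f ∈ FH := by
  have h15 : ∀ g ∈ bases, rot^[15] g = g := by decide +kernel
  rw [FH, List.mem_toFinset, List.mem_flatMap] at h ⊢
  obtain ⟨g, hg, hf⟩ := h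
  obtain ⟨n, hn, rfl⟩ := List.mem_map.1 hf
  rw [List.mem_range] at hn
  refine ⟨g, hg, List.mem_map.2 ?_⟩
  by_cases h1 : n + 1 < 15
  · exact ⟨n + 1, List.mem_range.2 h1, Function.iterate_succ_apply' rot n g⟩
  · obtain rfl : n = 14 := by omega
    refine ⟨0, List.mem_range.2 (by norm_num), ?_⟩
    have := h15 g hg
    rw [Function.iterate_succ_apply'] at this
    rw [this]
    rfl

theorem rot_iter_mem {f : At × At × At} (h : f ∈ FH) (n : ℕ) : rot^[n] f ∈ FH := by
  induction n with
  | zero => exact h
  | succ n ih =>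
    rw [Function.iterate_succ_apply']
    exact rot_mem ih

theorem rot_fifteen (f : At × At × At) : rot^[15] f = f := by
  obtain ⟨a, b, c⟩ := f
  have h : ∀ a : At, ph (ph (ph (ph (ph a)))) = a := by
    rintro ⟨i, k⟩
    have hk : ∀ k : ZMod 5, k + 1 + 1 + 1 + 1 + 1 = k := by decide
    exact Prod.ext rfl (hk k)
  have e : rot^[15] (a, b, c) =
      (ph (ph (ph (ph (ph a)))), ph (ph (ph (ph (ph b)))), ph (ph (ph (ph (ph c))))) := rfl
  rw [e, h, h, h]

theorem rot_mem_iff (f : At × At × At) : rot f ∈ FH ↔ f ∈ FH := by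
  refine ⟨fun h => ?_, rot_mem⟩
  have h1 := rot_iter_mem h 14
  rwa [← Function.iterate_succ_apply, rot_fifteen] at h1

/-- The first and the last atoms of the factorizations. -/
def PH : Finset (At × At) := FH.image fun f => (f.1, f.2.2)

theorem girth_PH : ∀ p ∈ PH, ∀ q ∈ PH, p.1 = q.1 → p.2 ≠ q.2 → ∀ a, (a, p.2) ∈ PH →
    (a, q.2) ∈ PH → a = p.1 := by decide +kernel

/-- The images of the generators in the symmetric group. -/
def X : Equiv.Perm (Fin 5) := Equiv.swap 1 2 * Equiv.swap 3 4

/-- The images of the generators in the symmetric group. -/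
def Y : Equiv.Perm (Fin 5) := Equiv.swap 0 1 * Equiv.swap 2 3

/-- The images of the generators in the symmetric group. -/
def Z : Equiv.Perm (Fin 5) := Equiv.swap 1 4 * Equiv.swap 2 3

theorem rXZ : X * Z = Z * X := by decide +kernel

theorem rYZ : Y * Z * Y = Z * Y * Z := by decide +kernel

theorem rXY : X * Y * X * Y * X = Y * X * Y * X * Y := by decide +kernel

theorem inj_w : Function.Injective (w X Y Z) := by decide +kernel

/-- The conjugation by the Coxeter element. -/
def phE : Equiv.Perm At where
  toFun := ph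
  invFun := fun a => (a.1, a.2 - 1)
  left_inv := fun a => by
    obtain ⟨i, k⟩ := a
    exact Prod.ext rfl (add_sub_cancel_right k 1)
  right_inv := fun a => by
    obtain ⟨i, k⟩ := a
    exact Prod.ext rfl (sub_add_cancel k 1)

/-- The factorizations of the Coxeter element. -/
def FP (a b c : At) : Prop := (a, b, c) ∈ FH

/-- The dual structure of type H₃. -/
theorem dual_h3 : Dual3 FP phE (w X Y Z) where
  ne := ⟨(0, 0), (1, 0), (1, 4), by
    unfold FP
    decide +kernel⟩
  first := by
    have h : ∀ a : At, ∃ f ∈ FH, f.1 = a := by decide +kernel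
    intro a
    obtain ⟨⟨x, b, c⟩, hf, rfl⟩ := h a
    exact ⟨b, c, hf⟩
  rot := fun a b c => (rot_mem_iff (a, b, c)).symm
  inj := inj_w
  prod := by
    intro a b c a' b' c' h h'
    exact (w_mul rXZ rYZ rXY h).trans (w_mul rXZ rYZ rXY h').symm
  girth := by
    intro a a' c c' b₁ b₂ b₃ b₄ h1 h2 h3 h4
    by_cases hc : c = c'
    · exact Or.inr hc
    · left
      have m : ∀ {a b c : At}, FP a b c → (a, c) ∈ PH := fun h =>
        Finset.mem_image_of_mem (fun f : At × At × At => (f.1, f.2.2)) h
      exact (girth_PH _ (m h1) _ (m h2) rfl hc a' (m h3) (m h4)).symm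

section

variable {S : Type} (M : CoxeterMatrix S) {s t u : S}

open Classical in
/-- The Artin group of type H₃ embeds in the dual group. -/
theorem exists_inj (hS : ∀ x, x = s ∨ x = t ∨ x = u) (hst : s ≠ t) (htu : t ≠ u) (hsu : s ≠ u)
    (m1 : M s t = 5) (m2 : M t u = 3) (m3 : M s u = 2) :
    ∃ f : ArtinGroup M →* DG FP, Function.Injective f := by
  have hD : ∀ f ∈ FH, at' FP f.1 * at' FP f.2.1 * at' FP f.2.2 =
      at' FP (0, 0) * at' FP (1, 0) * at' FP (1, 4) := by
    rintro ⟨a, b, c⟩ hf
    exact at_prod (F := FP) hf (by unfold FP; decide +kernel)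
  have e1 := rel_su hD
  have e2 := rel_tu hD
  have e3 := rel_st hD
  let g : S → DG FP := fun x =>
    if x = s then at' FP (0, 0) else if x = t then at' FP (1, 0) else at' FP (1, 4)
  have gs : g s = at' FP (0, 0) := if_pos rfl
  have gt : g t = at' FP (1, 0) := by
    simp only [g]
    rw [if_neg hst.symm, if_true]
  have gu : g u = at' FP (1, 4) := by
    simp only [g]
    rw [if_neg hsu.symm, if_neg htu.symm]
  have r5 : alt (g s) (g t) 5 = alt (g t) (g s) 5 := by
    rw [gs, gt]
    simp only [alt, mul_one, ← mul_assoc]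
    exact e3
  have r3 : alt (g t) (g u) 3 = alt (g u) (g t) 3 := by
    rw [gt, gu]
    simp only [alt, mul_one, ← mul_assoc]
    exact e2
  have r2 : alt (g s) (g u) 2 = alt (g u) (g s) 2 := by
    rw [gs, gu]
    simp only [alt, mul_one]
    exact e1
  have m1' : M t s = 5 := (M.symmetric t s).trans m1
  have m2' : M u t = 3 := (M.symmetric u t).trans m2
  have m3' : M u s = 2 := (M.symmetric u s).trans m3
  let ψ : ArtinGroup M →* DG FP := artinLift M g (by
    intro x y _
    rcases hS x with rfl | rfl | rfl <;> rcases hS y with rfl | rfl | rfl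
    · rfl
    · rw [m1]; exact r5
    · rw [m3]; exact r2
    · rw [m1']; exact r5.symm
    · rfl
    · rw [m2]; exact r3
    · rw [m3']; exact r2.symm
    · rw [m2']; exact r3.symm
    · rfl)
  -- the relations in the Artin group
  let G : S → ArtinGroup M := fun x => PresentedGroup.of x
  have q5 : G s * G t * G s * G t * G s = G t * G s * G t * G s * G t := by
    have := artin_braid M s t (by rw [m1]; norm_num)
    rw [m1] at this
    simp only [alt, mul_one, ← mul_assoc] at this
    exact this
  have q3 : G t * G u * G t = G u * G t * G u := by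
    have := artin_braid M t u (by rw [m2]; norm_num)
    rw [m2] at this
    simp only [alt, mul_one, ← mul_assoc] at this
    exact this
  have q2 : G s * G u = G u * G s := by
    have := artin_braid M s u (by rw [m3]; norm_num)
    rw [m3] at this
    simp only [alt, mul_one] at this
    exact this
  let χ : DG FP →* ArtinGroup M := dualLift (w (G s) (G t) (G u)) (by
    intro a b c a' b' c' h h'
    exact (w_mul q2 q3 q5 h).trans (w_mul q2 q3 q5 h').symm)
  have hcomp : χ.comp ψ = MonoidHom.id _ := by
    refine PresentedGroup.ext fun x => ?_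
    rw [MonoidHom.comp_apply, MonoidHom.id_apply]
    have h1 : ψ (PresentedGroup.of x) = g x := artinLift_of _ _ _ _
    rw [h1]
    rcases hS x with rfl | rfl | rfl
    · rw [gs]
      exact (dualLift_at _ _ _).trans (w_i0 0)
    · rw [gt]
      exact (dualLift_at _ _ _).trans (w_i0 1)
    · rw [gu]
      exact (dualLift_at _ _ _).trans (w_14 q2 q3 q5)
  refine ⟨ψ, fun x y hxy => ?_⟩
  have h1 := DFunLike.congr_fun hcomp x
  have h2 := DFunLike.congr_fun hcomp y
  rw [MonoidHom.comp_apply, MonoidHom.id_apply] at h1 h2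
  rw [← h1, ← h2, hxy]

end

end Pool.Agent.Helper13.BR
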